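import Pool.Agent.W_4481e3_q87.GoR
import Pool.Agent.W_4481e3_tab.T8

/-!
Tree s11o8, data 7.
-/

namespace Pool.Agent.W_4481e3_rt.s11o8

open Pool.Agent.W_4481e3_q25.EvR

theorem k148 : ckO Pool.Agent.W_4481e3_tab.T8.tab 1144800 2220640 16777216 4194304 5931008 8388608 16 1572864 524288 1572864 524288 511768002 529698652 3586130 7172260 268435456 268435456 16777216 16777216 8472495 8472495 0x102000c02000c02000c03000c21203000c03000c04000c03000c05029c21203000c03000c03000c2104000c03000c04000c2105070c05029c05000c05070c2106000c21204000c04000c05000c205000c05000c05000c206000c1205000c06029c231204000c04000c05000c2106000c06000c06000c212106000c06000c106000c206000c06000c07000c2106000c06000c207000c07000c2121829417a357721212103000c04000c204000c05070c104000c04000c205070c04000c04000c05000c05000c21205070c06000c21212104000c04000c204000c04000c04000c2104000c05000c04000c06000c121205000c06000c106000c206000c06000c2106000c06000c06000cb21206000cb1b212104000c04000c06000c104000c06000c12104000c04000c06000c104000c06000c121206000c06000c2bb2108000cb12bb2106000c06000c2bb2106000cbb212bb217ffb17746b7212180127782367205029c05029c205029c05070c2105029c05029c106000c06000c206000c06000c21816b87865c7206000c05029cb21bb2b12821b0789147128198f7908d705070c05070c05029c2105070c05029cb21206000c06000c07000c1206000c07000c207000cb21b21bb1218297279ce57bb2b12106000cb2b1b2b1bb2b12bb2121280dd67a7a37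 = true := by decide +kernel

theorem k150 : ckO Pool.Agent.W_4481e3_tab.T8.tab 1144800 2220640 16777216 4194304 5931008 8388608 5 1572864 524288 1572864 524288 515354132 515354132 7172260 7172260 268435456 268435456 16777216 16777216 8472495 8472495 0x102000c02000c02000c1202000c02000c03000c202000c03000c2121 = true := by decide +kernel

theorem k153 : ckO Pool.Agent.W_4481e3_tab.T8.tab 1144800 2220640 16777216 4194304 5931008 8388608 5 1572864 524288 1572864 524288 522526392 493837352 14344520 14344520 268435456 268435456 16777216 16777216 8472495 8472495 0x100000c00000c01000c201000c02000c21201000c01007c01003c121 = true := by decide +kernel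

theorem k155 : ckO Pool.Agent.W_4481e3_tab.T8.tab 1144800 2220640 16777216 4194304 5931008 8388608 8 1572864 524288 1572864 524288 493837352 508181872 14344520 28689040 268435456 268435456 16777216 16777216 8472495 8472495 0x100000c00000c00000c00000c00000c02000c12100000c00000c200000c00000c202000c102000c02000c203000c04000c2121212 = true := by decide +kernel

end Pool.Agent.W_4481e3_rt.s11o8
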